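import Mathlib
import Pool.Agent.H964.CW.Stm
import Pool.Agent.H349.QC.GS

/-!
# Overlaps of good weights with the weight function, exponent `g`
-/

set_option autoImplicit false

open Finset

namespace Pool.Agent.H195.CW

open Pool.Agent.H964.QC Pool.Agent.H964.CW Pool.Agent.H349.QC

theorem core3g (hRR : S_RR) {t T N0 : ℕ} {B g : ℝ} (o : ℕ → ℝ) (ht : 1 ≤ t) (hB : 1 ≤ B)
    (hN : t + T ≤ N0) (hg0 : 0 < g) (hg : g ≤ 1 / 4) (h0 : ∀ m, 0 ≤ o m)
    (h1 : ∀ m, m ≤ N0 → o m ≤ rr m)
    (h2 : ∀ m : ℕ, 1 ≤ m → m ≤ t → o m ≤ B / Real.sqrt ((m : ℝ) * t)) :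
    ∑ m ∈ Finset.Icc 1 T, o m * hh g t m ≤
      5 * (B ^ (2 * g) * (1 + Real.log B) + Real.log (1 + (T : ℝ) / t)) := by
  obtain ⟨s, hst, hs1, hs2⟩ := cutoff ht hB
  have ht' : (1 : ℝ) ≤ t := by exact_mod_cast ht
  have hB0 : 0 < B := by linarith
  have hB2 : 0 < B ^ 2 := by positivity
  have hqt : 0 < q (t : ℝ) := q_pos (by linarith)
  have hsB : 0 < Real.sqrt B := Real.sqrt_pos.2 (by linarith)
  have hsB2 : Real.sqrt B ^ 2 = B := Real.sq_sqrt (by linarith)
  have hlogB : 0 ≤ Real.log B := Real.log_nonneg hB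
  have hlog : 0 ≤ Real.log (1 + (T : ℝ) / t) := Real.log_nonneg (by
    have : (0 : ℝ) ≤ (T : ℝ) / t := by positivity
    linarith)
  obtain ⟨G, hG⟩ : ∃ G : ℝ, G = B ^ (2 * g) := ⟨_, rfl⟩
  have hG0 : 0 < G := by rw [hG]; exact Real.rpow_pos_of_pos hB0 _
  have hG2 : G = (B ^ 2) ^ g := by
    rw [hG, Real.rpow_mul hB0.le]
    norm_num
  have hhpos : ∀ m : ℕ, 1 ≤ hh g t m := fun m => le_max_left _ _
  -- the weight for small and large ages
  have hsmall : ∀ m : ℕ, 1 ≤ m → m ≤ t → hh g t m ≤ ((t : ℝ) / m) ^ g := by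
    intro m hm hmt
    have hm' : (1 : ℝ) ≤ m := by exact_mod_cast hm
    have hmt' : (m : ℝ) ≤ t := by exact_mod_cast hmt
    have k1 : ((t : ℝ) + 1) / ((m : ℝ) + 1) ≤ t / m := by
      rw [div_le_div_iff₀ (by linarith) (by linarith)]
      nlinarith
    unfold hh
    refine max_le ?_ ?_
    · apply Real.one_le_rpow _ hg0.le
      rw [le_div_iff₀ (by linarith), one_mul]
      exact hmt'
    · exact Real.rpow_le_rpow (by positivity) k1 hg0.le
  have hlarge : ∀ m : ℕ, t ≤ m → hh g t m = 1 := by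
    intro m hm
    have hm' : (t : ℝ) ≤ m := by exact_mod_cast hm
    unfold hh
    apply max_eq_left
    apply Real.rpow_le_one (by positivity) _ hg0.le
    rw [div_le_one (by linarith)]
    linarith
  have hf : ∀ m, 0 ≤ o m * hh g t m := fun m =>
    mul_nonneg (h0 m) (le_trans zero_le_one (hhpos m))
  -- small ages: comparison with the exponent `1/4`
  have hcmp : ∀ m : ℕ, 1 ≤ m → (m : ℝ) ≤ t / B ^ 2 → m ≤ t →
      hh g t m ≤ G / Real.sqrt B * (q t / q m) := by
    intro m hm hms hmt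
    have hm' : (1 : ℝ) ≤ m := by exact_mod_cast hm
    refine (hsmall m hm hmt).trans ?_
    have k1 : (t : ℝ) / m = B ^ 2 * (t / (B ^ 2 * m)) := by
      field_simp
    have k2 : 1 ≤ (t : ℝ) / (B ^ 2 * m) := by
      rw [le_div_iff₀ (by positivity), one_mul]
      rw [le_div_iff₀ hB2] at hms
      linarith
    have k3 : ((t : ℝ) / (B ^ 2 * m)) ^ g ≤ q t / (Real.sqrt B * q m) := by
      refine (Real.rpow_le_rpow_of_exponent_le k2 hg).trans (le_of_eq ?_)
      rw [rpow_quarter (by positivity), ← div_div, q_div (by positivity),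
        q_cut (by linarith) (by linarith), div_div]
    rw [k1, Real.mul_rpow (by positivity) (by positivity), ← hG2]
    calc G * ((t : ℝ) / (B ^ 2 * m)) ^ g ≤ G * (q t / (Real.sqrt B * q m)) := by gcongr
      _ = G / Real.sqrt B * (q t / q m) := by
          have hqm : 0 < q (m : ℝ) := q_pos (by linarith)
          field_simp
  -- ages up to s
  have e1 : ∑ m ∈ Finset.Ioc 0 s, o m * hh g t m ≤ 4 * G := by
    have e2 : ∑ m ∈ Finset.Ioc 0 s, o m * hh g t m ≤
        (fun m : ℕ => G / Real.sqrt B * (4 * B / q t * q (m : ℝ))) s -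
        (fun m : ℕ => G / Real.sqrt B * (4 * B / q t * q (m : ℝ))) 0 := by
      refine tele (fun m : ℕ => o m * hh g t m)
        (fun m : ℕ => G / Real.sqrt B * (4 * B / q t * q (m : ℝ)))
        (Nat.zero_le s) fun m _ hm => ?_
      have k1 := h2 (m + 1) (by omega) (by omega)
      have k0 : (((m + 1 : ℕ) : ℕ) : ℝ) ≤ s := by exact_mod_cast (by omega : m + 1 ≤ s)
      have k2 := hcmp (m + 1) (by omega) (k0.trans hs1) (by omega)
      have hqm : 0 < q ((m : ℝ) + 1) := q_pos (by positivity)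
      push_cast at k1 k2 ⊢
      rw [Real.sqrt_mul (by positivity), ← q_sq, ← q_sq] at k1
      calc o (m + 1) * hh g t (m + 1)
          ≤ B / (q ((m : ℝ) + 1) ^ 2 * q t ^ 2) * (G / Real.sqrt B * (q t / q ((m : ℝ) + 1))) := by
            apply mul_le_mul k1 k2 (le_trans zero_le_one (hhpos _)) (by positivity)
        _ = G / Real.sqrt B * (B / q t * (1 / q ((m : ℝ) + 1) ^ 3)) := by field_simp
        _ ≤ G / Real.sqrt B * (B / q t * (4 * (q ((m : ℝ) + 1) - q m))) := by
            have := step_q m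
            gcongr
        _ = _ := by ring
    refine e2.trans ?_
    have k0 : q ((0 : ℕ) : ℝ) = 0 := by simp [q]
    simp only [k0, mul_zero, sub_zero]
    have k1 : q (s : ℝ) ≤ q t / Real.sqrt B := by
      rw [← q_cut (by linarith) (by linarith)]
      exact q_mono hs1
    calc G / Real.sqrt B * (4 * B / q t * q s) ≤
        G / Real.sqrt B * (4 * B / q t * (q t / Real.sqrt B)) := by gcongr
      _ = 4 * G * (B / Real.sqrt B ^ 2) := by field_simp
      _ = 4 * G := by rw [hsB2, div_self hB0.ne', mul_one]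
  -- ages between s and t
  have e3 : ∀ M : ℕ, M ≤ t → M ≤ T →
      ∑ m ∈ Finset.Ioc s M, o m * hh g t m ≤ G * (1 + Real.log B) := by
    intro M hM1 hM2
    rcases le_total s M with h | h
    · have k1 : ∑ m ∈ Finset.Ioc s M, o m * hh g t m ≤ ∑ m ∈ Finset.Ioc s M, G * rr m := by
        refine Finset.sum_le_sum fun m hm => ?_
        rw [Finset.mem_Ioc] at hm
        have hm' : (s : ℝ) + 1 ≤ m := by exact_mod_cast hm.1
        have hs0 : (0 : ℝ) ≤ s := Nat.cast_nonneg s
        have k2 : hh g t m ≤ G := by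
          refine (hsmall m (by omega) (by omega)).trans ?_
          rw [hG2]
          refine Real.rpow_le_rpow (by positivity) ?_ hg0.le
          rw [div_le_iff₀ (by linarith)]
          rw [div_lt_iff₀ hB2] at hs2
          calc (t : ℝ) ≤ (s + 1) * B ^ 2 := hs2.le
            _ ≤ m * B ^ 2 := by gcongr
            _ = B ^ 2 * m := by ring
        calc o m * hh g t m ≤ rr m * G :=
              mul_le_mul (h1 m (by omega)) k2 (le_trans zero_le_one (hhpos m)) (hRR.1 m).le
          _ = G * rr m := mul_comm _ _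
      rw [← Finset.mul_sum, ← RR_sub h] at k1
      have k3 : RR M ≤ RR t := RR_mono hRR.1 hM1
      have k4 := RR_cut hRR ht hB hst hs2
      refine k1.trans ?_
      gcongr
      linarith
    · rw [Finset.Ioc_eq_empty (by omega), Finset.sum_empty]
      positivity
  -- ages larger than t
  have e4 : ∑ m ∈ Finset.Ioc t T, o m * hh g t m ≤ Real.log (1 + (T : ℝ) / t) := by
    rcases le_total t T with h | h
    · have k1 : ∑ m ∈ Finset.Ioc t T, o m * hh g t m ≤ RR T - RR t := by
        rw [RR_sub h]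
        refine Finset.sum_le_sum fun m hm => ?_
        rw [Finset.mem_Ioc] at hm
        rw [hlarge m (by omega), mul_one]
        exact h1 m (by omega)
      have k2 := hRR.2.2.2.2.1 t T ht h
      have h' : (t : ℝ) ≤ T := by exact_mod_cast h
      have k3 : Real.log ((T : ℝ) / t) ≤ Real.log (1 + (T : ℝ) / t) :=
        Real.log_le_log (div_pos (by linarith) (by linarith)) (by linarith)
      have k4 : 0 ≤ Real.log (1 + (T : ℝ) / t) := hlog
      linarith
    · rw [Finset.Ioc_eq_empty (by omega), Finset.sum_empty]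
      exact hlog
  rw [icc_eq, ← hG]
  have k1 := split_le _ hf s T
  have k5 : 0 ≤ G * Real.log B := by positivity
  rcases le_total t T with h | h
  · have k2 : ∑ m ∈ Finset.Ioc s T, o m * hh g t m =
        ∑ m ∈ Finset.Ioc s t, o m * hh g t m + ∑ m ∈ Finset.Ioc t T, o m * hh g t m :=
      (Finset.sum_Ioc_consecutive _ hst h).symm
    have k3 := e3 t le_rfl h
    linarith
  · have k3 := e3 T h le_rfl
    linarith

theorem t_GSg : S_GSg := by
  intro hRR hOV C0 hC0
  refine ⟨5, by norm_num, ?_⟩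
  intro V _ _ N0 W w t T B g ht hB hN hG hg0 hg
  obtain ⟨-, -, -, -, -, -, hsum, hlow, -⟩ := hOV V C0 N0 W w hG.nonneg
  obtain ⟨h1, -, -⟩ := hsum hG.sum
  have h0 : ∀ m, 0 ≤ ov W w m := fun m => Finset.sum_nonneg fun z _ => sq_nonneg _
  have h2 : ∀ m : ℕ, 1 ≤ m → m ≤ t → ov W w m ≤ B / Real.sqrt ((m : ℝ) * t) := hG.ov
  exact core3g hRR (ov W w) ht hB hN hg0 hg h0 h1 h2

end Pool.Agent.H195.CW
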